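import Pool.Agent.Work.MP_e487d8_al.Bd.B22
import Pool.Agent.Work.MP_e487d8_al.Y.Cry.Facts

/-! MP_e487d8_al, GRAD: every simple nilpotent module has a grading. -/

set_option autoImplicit false
set_option linter.unusedSectionVars false

namespace Pool.Agent.KLS

variable {K I : Type} [Field K] [Fintype I] [DecidableEq I] {D : Datum K I}

section

variable {M X : Type} [AddCommGroup M] [Module K M] [Module (KLRAlg D) M]
  [IsScalarTower K (KLRAlg D) M] [AddCommGroup X] [Module K X] [Module (KLRAlg D) X]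
  [IsScalarTower K (KLRAlg D) X]

/-- a module on which the dots and the crossings act by zero, in degree `0` -/
noncomputable def Grd.triv (hx : ∀ k (u : M), D.x k • u = 0) (ht : ∀ k (u : M), D.t k • u = 0) :
    Grd D M where
  rho := ofGens (Lau.sg D 0) (fun k i u => by rw [Lau.e_sg])
    (fun k u => by
      rw [Lau.x_sg, hx, map_zero]
      symm
      refine Finset.sum_eq_zero fun i _ => ?_
      rw [mul_smul, hx, map_zero])
    (fun k u => by
      rw [Lau.t_sg, ht, map_zero]
      symm
      refine Finset.sum_eq_zero fun i _ => Finset.sum_eq_zero fun j _ => ?_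
      rw [mul_smul, ht, map_zero])
  tot u := by rw [ofGens_apply, Lau.tot_sg]
  dg u := by rw [ofGens_apply, Lau.map_sg, Lau.dg_sg, ofGens_apply]

theorem Grd.triv_hm (hx : ∀ k (u : M), D.x k • u = 0) (ht : ∀ k (u : M), D.t k • u = 0) (u : M) :
    (Grd.triv hx ht).Hm 0 u := rfl

variable (D) in
/-- the grading of `L(i)` -/
noncomputable def Lt.grd (i : I) : Grd D (Lt D i) :=
  Grd.triv (fun k u => Lt.x_smul D i k u) (fun k u => Lt.t_smul D i k u)

/-- the modules `P_a X` are graded -/
theorem exists_graded_ind (hb : S_basis D) {i : I} {n : ℕ} (hX : FdMod D n X)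
    (h0 : ∀ x : X, IsKr D i 1 x → x = 0) (gX : Grd D X) (a : ℕ) :
    ∃ (P : Type) (_ : AddCommGroup P) (_ : Module K P) (_ : Module (KLRAlg D) P)
      (_ : IsScalarTower K (KLRAlg D) P) (j : X →ₗ[K] P), IsInd D i a n X P j ∧
        Nonempty (Grd D P) := by
  induction a with
  | zero => exact ⟨X, _, _, _, inferInstance, LinearMap.id, IsInd.base hX h0, ⟨gX⟩⟩
  | succ a ih =>
    obtain ⟨P, i1, i2, i3, i4, j, hj, ⟨gP⟩⟩ := ih
    refine ⟨Conv D 1 (Lt D i) P, inferInstance, inferInstance, inferInstance, inferInstance,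
      (lk D i P).comp j, ?_, ⟨Grd.conv 1 (Lt.grd D i) gP⟩⟩
    have := hj.step hb
    rwa [Nat.add_comm 1 a] at this

/-- every simple nilpotent module has a grading -/
theorem gradable (hb : S_basis D) : ∀ (n : ℕ) (M : Type) [AddCommGroup M] [Module K M]
    [Module (KLRAlg D) M] [IsScalarTower K (KLRAlg D) M], Smp D n M → Nonempty (Grd D M) := by
  intro n
  induction n using Nat.strong_induction_on with
  | _ n ih =>
    intro M _ _ _ _ hM
    have := hM.simple
    have hne : Nontrivial M := IsSimpleModule.nontrivial (KLRAlg D) M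
    rcases Nat.eq_zero_or_pos n with hn | hn
    · subst hn
      exact ⟨Grd.triv (fun k u => hM.strand.x_smul_zero (Nat.zero_le k) u)
        (fun k u => hM.strand.t_smul_zero (Nat.zero_le _) u)⟩
    · obtain ⟨m, rfl⟩ : ∃ m, n = m + 1 := ⟨n - 1, by omega⟩
      obtain ⟨i, hi⟩ := exists_eps_pos hM.strand
      have hle := eps_le (i := i) hM.strand
      have hK := Kr.smp hb hM i
      obtain ⟨gX⟩ := ih (m + 1 - eps D i M) (by omega) _ hK
      obtain ⟨P, i1, i2, i3, i4, j, hj, ⟨gP⟩⟩ := exists_graded_ind hb hK.toFdMod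
        (Kr.noKr hM.strand le_rfl) gX (eps D i M)
      obtain ⟨q, hq, -⟩ := hj.exists_surj (Kr.isGen hM i)
      have hKs := hK.simple
      have hfd := hj.fdm.fd
      refine ⟨gP.ofSurj q hq fun u d hu => ?_⟩
      have h1 := pr_mem_of_unique_max gP (S := LinearMap.ker q) (fun h => ?_)
        (fun U hU => hj.le_ker q hq U hU) hu d
      · exact h1
      · obtain ⟨v, hv⟩ := exists_ne (0 : M)
        obtain ⟨w, rfl⟩ := hq v
        exact hv (LinearMap.mem_ker.1 (h ▸ Submodule.mem_top : w ∈ LinearMap.ker q))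

end

end Pool.Agent.KLS
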